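import Mathlib
import Pool.Agent.Helper21_UR.Stmts

/-!
# Module CONT: continuity of the integrands
-/

namespace Pool.Agent.Helper92_UR

open Complex MeasureTheory Filter Topology
open Pool.Agent.Helper21_UR

section
variable {X : Type*} [TopologicalSpace X]

theorem cont_prod [LocallyCompactSpace X] {f : ℕ → X → ℂ} {u : ℕ → ℝ} (hu : Summable u)
    (h : ∀ᶠ n in atTop, ∀ x, ‖f n x‖ ≤ u n) (hc : ∀ n, Continuous (f n)) :
    Continuous fun x => ∏' n, (1 + f n x) := by
  have h1 := hu.hasProdLocallyUniformlyOn_nat_one_add (K := (Set.univ : Set X)) (f := f) isOpen_univ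
    (by filter_upwards [h] with n hn x _ using hn x) (fun n => (hc n).continuousOn)
  rw [hasProdLocallyUniformlyOn_iff_tendstoLocallyUniformlyOn] at h1
  rw [← continuousOn_univ]
  refine h1.continuousOn (Eventually.frequently (Eventually.of_forall fun s => ?_))
  exact (continuous_finsetProd s fun i _ => continuous_const.add (hc i)).continuousOn

/-- continuity of the partial theta function -/
theorem cont_pt {q z : X → ℂ} (hq : Continuous q) (hz : Continuous z) {ρ : ℝ} (hρ0 : 0 ≤ ρ)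
    (hρ : ρ < 1) (hqb : ∀ x, ‖q x‖ ≤ 1) (hzb : ∀ x, ‖z x‖ ≤ ρ) :
    Continuous fun x => pt (q x) (z x) := by
  unfold pt
  refine continuous_tsum (u := fun j => ρ ^ j) (fun j => ?_)
    (summable_geometric_of_lt_one hρ0 hρ) (fun j x => ?_)
  · exact ((continuous_const).mul (hz.pow j)).mul (hq.pow _)
  · rw [norm_mul, norm_mul, norm_pow, norm_pow, norm_pow, norm_neg, norm_one, one_pow, one_mul]
    calc ‖z x‖ ^ j * ‖q x‖ ^ (j * (j + 1) / 2) ≤ ρ ^ j * 1 := by
          gcongr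
          · exact hzb x
          · exact pow_le_one₀ (norm_nonneg _) (hqb x)
      _ = ρ ^ j := mul_one _

theorem norm_pt_le {q z : ℂ} {ρ : ℝ} (hρ0 : 0 ≤ ρ) (hρ : ρ < 1) (hqb : ‖q‖ ≤ 1) (hzb : ‖z‖ ≤ ρ) :
    ‖pt q z‖ ≤ (1 - ρ)⁻¹ := by
  unfold pt
  rw [← tsum_geometric_of_lt_one hρ0 hρ]
  refine tsum_of_norm_bounded (summable_geometric_of_lt_one hρ0 hρ).hasSum fun j => ?_
  rw [norm_mul, norm_mul, norm_pow, norm_pow, norm_pow, norm_neg, norm_one, one_pow, one_mul]
  calc ‖z‖ ^ j * ‖q‖ ^ (j * (j + 1) / 2) ≤ ρ ^ j * 1 := by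
        gcongr
        exact pow_le_one₀ (norm_nonneg _) hqb
    _ = ρ ^ j := mul_one _

theorem cont_QP [LocallyCompactSpace X] {q : X → ℂ} (hq : Continuous q) {r : ℝ} (hr0 : 0 ≤ r)
    (hr : r < 1) (hqb : ∀ x, ‖q x‖ ≤ r) : Continuous fun x => QP (q x) := by
  have h := cont_prod (X := X) (f := fun n x => -(q x) ^ (n + 1)) (u := fun n => r ^ (n + 1))
    ((summable_nat_add_iff 1).2 (summable_geometric_of_lt_one hr0 hr))
    (Eventually.of_forall fun n x => by
      rw [norm_neg, norm_pow]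
      exact pow_le_pow_left₀ (norm_nonneg _) (hqb x) _)
    (fun n => (hq.pow _).neg)
  have e : (fun x => QP (q x)) = fun x => ∏' n : ℕ, (1 + -(q x) ^ (n + 1)) := by
    funext x
    unfold QP
    simp only [sub_eq_add_neg]
  rw [e]
  exact h

theorem QP_ne {q : ℂ} (hq : ‖q‖ < 1) : QP q ≠ 0 := by
  unfold QP
  simp only [sub_eq_add_neg]
  refine tprod_one_add_ne_zero_of_summable (f := fun n : ℕ => -q ^ (n + 1)) (fun n => ?_) ?_
  · intro h
    have h1 : q ^ (n + 1) = 1 := by linear_combination -h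
    have h2 : ‖q‖ ^ (n + 1) = 1 := by rw [← norm_pow, h1, norm_one]
    have h3 : ‖q‖ ^ (n + 1) < 1 := pow_lt_one₀ (norm_nonneg _) hq (Nat.succ_ne_zero n)
    linarith
  · simp only [norm_neg, norm_pow]
    exact (summable_nat_add_iff 1).2 (summable_geometric_of_lt_one (norm_nonneg _) hq)

theorem cont_Cp [LocallyCompactSpace X] {q ζ : X → ℂ} (hq : Continuous q) (hζ : Continuous ζ)
    {r R : ℝ} (hr0 : 0 ≤ r) (hr : r < 1) (hR : 0 < R) (hqb : ∀ x, ‖q x‖ = r) (hζb : ∀ x, ‖ζ x‖ = R)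
    (h1 : ∀ j : ℕ, R * r ^ (j + 1) ≠ 1) (h2 : ∀ j : ℕ, R⁻¹ * r ^ (j + 1) ≠ 1) :
    Continuous fun x => Cp (q x) (ζ x) := by
  have hζ0 : ∀ x, ζ x ≠ 0 := fun x h => by
    have := hζb x
    rw [h, norm_zero] at this
    linarith
  have na : ∀ j x, ‖ζ x * q x ^ (j + 1)‖ = R * r ^ (j + 1) := fun j x => by
    rw [norm_mul, norm_pow, hqb, hζb]
  have nb : ∀ j x, ‖(ζ x)⁻¹ * q x ^ (j + 1)‖ = R⁻¹ * r ^ (j + 1) := fun j x => by
    rw [norm_mul, norm_pow, norm_inv, hqb, hζb]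
  have ne1 : ∀ j x, 1 - ζ x * q x ^ (j + 1) ≠ 0 := fun j x h => by
    apply h1 j
    rw [← na j x, ← sub_eq_zero.1 h, norm_one]
  have ne2 : ∀ j x, 1 - (ζ x)⁻¹ * q x ^ (j + 1) ≠ 0 := fun j x h => by
    apply h2 j
    rw [← nb j x, ← sub_eq_zero.1 h, norm_one]
  have ht : Tendsto (fun j : ℕ => (R + R⁻¹) * r ^ (j + 1)) atTop (𝓝 0) := by
    have h3 := ((tendsto_pow_atTop_nhds_zero_of_lt_one hr0 hr).comp (tendsto_add_atTop_nat 1)).const_mul (R + R⁻¹)
    simpa using h3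
  have hev : ∀ᶠ j : ℕ in atTop, (R + R⁻¹) * r ^ (j + 1) ≤ 1 / 2 :=
    ht.eventually (ge_mem_nhds (by norm_num))
  have h := cont_prod (X := X)
    (f := fun n x => ((1 - ζ x * q x ^ (n + 1)) * (1 - (ζ x)⁻¹ * q x ^ (n + 1)))⁻¹ - 1)
    (u := fun n => 6 * ((R + R⁻¹) * r ^ (n + 1)))
    ((((summable_nat_add_iff 1).2 (summable_geometric_of_lt_one hr0 hr)).mul_left _).mul_left _)
    (by
      filter_upwards [hev] with j hj x
      set a := ζ x * q x ^ (j + 1) with ha
      set b := (ζ x)⁻¹ * q x ^ (j + 1) with hb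
      have hna := na j x
      have hnb := nb j x
      rw [← ha] at hna
      rw [← hb] at hnb
      have hp : 0 ≤ R * r ^ (j + 1) := by positivity
      have hp' : 0 ≤ R⁻¹ * r ^ (j + 1) := by positivity
      have hsum : ‖a‖ + ‖b‖ = (R + R⁻¹) * r ^ (j + 1) := by rw [hna, hnb]; ring
      have ha2 : ‖a‖ ≤ 1 / 2 := by linarith [norm_nonneg b]
      have hb2 : ‖b‖ ≤ 1 / 2 := by linarith [norm_nonneg a]
      have e1 : ((1 - a) * (1 - b))⁻¹ - 1 = (a + b - a * b) * ((1 - a) * (1 - b))⁻¹ := by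
        have n1 := ne1 j x
        have n2 := ne2 j x
        rw [← ha] at n1
        rw [← hb] at n2
        field_simp
        ring
      rw [e1, norm_mul, norm_inv, norm_mul]
      have l1 : 1 / 2 ≤ ‖1 - a‖ := by
        have := norm_sub_norm_le (1 : ℂ) a
        rw [norm_one] at this
        linarith
      have l2 : 1 / 2 ≤ ‖1 - b‖ := by
        have := norm_sub_norm_le (1 : ℂ) b
        rw [norm_one] at this
        linarith
      have l3 : (‖1 - a‖ * ‖1 - b‖)⁻¹ ≤ 4 := by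
        rw [inv_le_comm₀ (by positivity) (by norm_num)]
        nlinarith
      have l4 : ‖a + b - a * b‖ ≤ 3 / 2 * (‖a‖ + ‖b‖) := by
        have := norm_sub_le (a + b) (a * b)
        have := norm_add_le a b
        have := norm_mul a b
        nlinarith [norm_nonneg a, norm_nonneg b]
      calc ‖a + b - a * b‖ * (‖1 - a‖ * ‖1 - b‖)⁻¹ ≤ (3 / 2 * (‖a‖ + ‖b‖)) * 4 := by gcongr
        _ = 6 * ((R + R⁻¹) * r ^ (j + 1)) := by rw [← hsum]; ring)
    (fun n => by
      refine Continuous.sub (Continuous.inv₀ ?_ ?_) continuous_const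
      · exact (continuous_const.sub (hζ.mul (hq.pow _))).mul
          (continuous_const.sub ((hζ.inv₀ hζ0).mul (hq.pow _)))
      · intro x
        exact mul_ne_zero (ne1 n x) (ne2 n x))
  have e : (fun x => Cp (q x) (ζ x)) = fun x => ∏' n : ℕ,
      (1 + (((1 - ζ x * q x ^ (n + 1)) * (1 - (ζ x)⁻¹ * q x ^ (n + 1)))⁻¹ - 1)) := by
    funext x
    unfold Cp
    simp only [add_sub_cancel]
  rw [e]
  exact h

end

theorem tt_re (t0 θ : ℝ) : (tt t0 θ).re = t0 := by simp [tt]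

theorem cont_tt (t0 : ℝ) : Continuous fun θ : ℝ => tt t0 θ := by
  unfold tt
  fun_prop

theorem norm_q (t : ℂ) : ‖cexp (-t)‖ = Real.exp (-t.re) := by
  rw [Complex.norm_exp]; simp

theorem r_lt {x : ℝ} (hx : 0 < x) : Real.exp (-x) < 1 := Real.exp_lt_one_iff.2 (by linarith)

theorem contFF (κ : ℝ) (hκ0 : 0 < κ) (hκ : ∀ j : ℕ, κ ≠ j + 1) (t0 c : ℝ) (ht : 0 < t0) (m : ℕ) :
    Continuous fun p : ℝ × ℝ => FF κ (tt t0 p.1) c m p.2 := by
  have ct : Continuous fun p : ℝ × ℝ => tt t0 p.1 := (cont_tt t0).comp continuous_fst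
  have cφ : Continuous fun p : ℝ × ℝ => (p.2 : ℂ) := continuous_ofReal.comp continuous_snd
  have cw : Continuous fun p : ℝ × ℝ => ww κ (tt t0 p.1) p.2 := by
    unfold ww
    exact cφ.sub (continuous_const.mul ct)
  have cq : Continuous fun p : ℝ × ℝ => cexp (-tt t0 p.1) := continuous_exp.comp ct.neg
  have wre : ∀ p : ℝ × ℝ, (I * ww κ (tt t0 p.1) p.2).re = κ * t0 := by
    intro p
    unfold ww tt
    simp
  have cz : Continuous fun p : ℝ × ℝ => cexp (-(2 * I * ww κ (tt t0 p.1) p.2)) :=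
    continuous_exp.comp ((continuous_const.mul cw).neg)
  have cζ : Continuous fun p : ℝ × ℝ => cexp (I * ww κ (tt t0 p.1) p.2) :=
    continuous_exp.comp (continuous_const.mul cw)
  have nq : ∀ p : ℝ × ℝ, ‖cexp (-tt t0 p.1)‖ = Real.exp (-t0) := fun p => by
    rw [norm_q, tt_re]
  have nz : ∀ p : ℝ × ℝ, ‖cexp (-(2 * I * ww κ (tt t0 p.1) p.2))‖ = Real.exp (-(2 * κ * t0)) := by
    intro p
    rw [Complex.norm_exp]
    congr 1
    have e : -(2 * I * ww κ (tt t0 p.1) p.2) = ((-2 : ℝ) : ℂ) * (I * ww κ (tt t0 p.1) p.2) := by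
      push_cast; ring
    rw [e, Complex.re_ofReal_mul, wre]
    ring
  have nζ : ∀ p : ℝ × ℝ, ‖cexp (I * ww κ (tt t0 p.1) p.2)‖ = Real.exp (κ * t0) := by
    intro p
    rw [Complex.norm_exp, wre]
  have cpt : Continuous fun p : ℝ × ℝ => pt (cexp (-tt t0 p.1))
      (cexp (-(2 * I * ww κ (tt t0 p.1) p.2))) :=
    cont_pt cq cz (Real.exp_pos _).le (r_lt (by positivity : 0 < 2 * κ * t0))
      (fun p => by rw [nq]; exact (r_lt ht).le) (fun p => (nz p).le)
  have cCp : Continuous fun p : ℝ × ℝ => Cp (cexp (-tt t0 p.1)) (cexp (I * ww κ (tt t0 p.1) p.2)) := by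
    refine cont_Cp cq cζ (Real.exp_pos _).le (r_lt ht) (Real.exp_pos (κ * t0)) nq nζ ?_ ?_
    · intro j h
      rw [← Real.exp_nat_mul, ← Real.exp_add] at h
      have h1 := Real.exp_eq_one_iff _ |>.1 h
      push_cast at h1
      have h2 : t0 * (κ - (j + 1)) = 0 := by linarith
      rcases mul_eq_zero.1 h2 with h3 | h3
      · linarith
      · exact hκ j (by linarith)
    · intro j h
      rw [← Real.exp_neg, ← Real.exp_nat_mul, ← Real.exp_add] at h
      have h1 := Real.exp_eq_one_iff _ |>.1 h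
      push_cast at h1
      have h2 : 0 < t0 * (κ + (j + 1)) := by positivity
      linarith
  unfold FF PT
  refine (((Continuous.cexp ?_).mul (Continuous.mul ?_ cpt)).mul cCp).mul ?_
  · exact ((continuous_const.mul ct).neg).sub (continuous_const.mul cφ)
  · exact continuous_exp.comp ((continuous_const.mul cw).neg)
  · refine continuous_const.mul (Continuous.pow ?_ 2)
    exact continuous_sinh.comp ((continuous_const.add (continuous_const.mul cw)).div_const 2)

theorem four_sinh_sq (y : ℂ) : 4 * sinh (y / 2) ^ 2 = cexp y - 2 + cexp (-y) := by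
  have h1 : cexp y = cexp (y / 2) ^ 2 := by rw [← Complex.exp_nat_mul]; congr 1; push_cast; ring
  have h2 : cexp (-y) = cexp (-(y / 2)) ^ 2 := by rw [← Complex.exp_nat_mul]; congr 1; push_cast; ring
  have h3 : cexp (y / 2) * cexp (-(y / 2)) = 1 := by rw [← Complex.exp_add]; simp
  rw [h1, h2, Complex.sinh]
  linear_combination (-2) * h3

theorem norm_sk_le (t : ℂ) (c : ℝ) (ht : 0 < t.re) (m k : ℕ) :
    ‖sk t c m k‖ ≤ 8 * Real.exp |c| * (1 - Real.exp (-t.re))⁻¹ * Real.exp (-t.re) ^ (k * (k + 1) / 2) := by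
  set r := Real.exp (-t.re) with hr
  have hr0 : 0 < r := Real.exp_pos _
  have hr1 : r < 1 := r_lt ht
  have hq : ‖cexp (-t)‖ = r := norm_q t
  unfold sk
  rw [norm_mul, norm_mul, norm_mul, norm_mul, norm_pow, norm_neg, norm_one, one_pow, one_mul,
    norm_pow, hq]
  have h1 : ‖1 - cexp (-t) ^ (k + 1)‖ ≤ 2 := by
    refine (norm_sub_le _ _).trans ?_
    rw [norm_one, norm_pow, hq]
    have := pow_le_one₀ hr0.le hr1.le (n := k + 1)
    linarith
  have h2 : ‖pt (cexp (-t)) (cexp (-t) ^ (2 * (k + 1)))‖ ≤ (1 - r)⁻¹ := by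
    refine norm_pt_le hr0.le hr1 (by rw [hq]; exact hr1.le) ?_
    rw [norm_pow, hq]
    calc r ^ (2 * (k + 1)) ≤ r ^ 1 := pow_le_pow_of_le_one hr0.le hr1.le (by omega)
      _ = r := pow_one r
  have h3 : r ^ (k + 1) * ‖4 * sinh (((c : ℂ) + ((k : ℂ) + 1) * t) / 2) ^ 2‖ ≤ 4 * Real.exp |c| := by
    rw [four_sinh_sq]
    set y : ℂ := (c : ℂ) + ((k : ℂ) + 1) * t with hy
    have hyr : y.re = c + (k + 1) * t.re := by
      rw [hy]
      simp
    have hrk : r ^ (k + 1) = Real.exp (-((k + 1) * t.re)) := by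
      rw [hr, ← Real.exp_nat_mul]
      congr 1
      push_cast
      ring
    have hpos : 0 ≤ (k + 1) * t.re := by positivity
    have a1 : ‖cexp y - 2 + cexp (-y)‖ ≤ Real.exp y.re + 2 + Real.exp (-y.re) := by
      refine (norm_add_le _ _).trans ?_
      refine add_le_add ((norm_sub_le _ _).trans ?_) ?_
      · rw [Complex.norm_exp]; norm_num
      · rw [Complex.norm_exp, Complex.neg_re]
    have ec : Real.exp c ≤ Real.exp |c| := Real.exp_le_exp.2 (le_abs_self c)
    have ec1 : 1 ≤ Real.exp |c| := Real.one_le_exp (abs_nonneg c)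
    have a2 : r ^ (k + 1) * Real.exp y.re ≤ Real.exp |c| := by
      rw [hrk, ← Real.exp_add, hyr]
      apply Real.exp_le_exp.2
      have := le_abs_self c
      linarith
    have a3 : r ^ (k + 1) * Real.exp (-y.re) ≤ Real.exp |c| := by
      rw [hrk, ← Real.exp_add, hyr]
      apply Real.exp_le_exp.2
      have := neg_abs_le c
      linarith
    have a4 : r ^ (k + 1) * 2 ≤ 2 * Real.exp |c| := by
      have := pow_le_one₀ hr0.le hr1.le (n := k + 1)
      linarith
    calc r ^ (k + 1) * ‖cexp y - 2 + cexp (-y)‖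
        ≤ r ^ (k + 1) * (Real.exp y.re + 2 + Real.exp (-y.re)) :=
          mul_le_mul_of_nonneg_left a1 (by positivity)
      _ = r ^ (k + 1) * Real.exp y.re + r ^ (k + 1) * 2 + r ^ (k + 1) * Real.exp (-y.re) := by ring
      _ ≤ 4 * Real.exp |c| := by linarith
  have h4 : r ^ ((k + 1) * (m + 1) + k * (k + 1) / 2) ≤ r ^ (k + 1) * r ^ (k * (k + 1) / 2) := by
    rw [← pow_add]
    apply pow_le_pow_of_le_one hr0.le hr1.le
    have : k + 1 ≤ (k + 1) * (m + 1) := Nat.le_mul_of_pos_right _ (by omega)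
    omega
  have hinv : 0 < (1 - r)⁻¹ := inv_pos.2 (by linarith)
  calc r ^ ((k + 1) * (m + 1) + k * (k + 1) / 2) * ‖1 - cexp (-t) ^ (k + 1)‖ *
        ‖pt (cexp (-t)) (cexp (-t) ^ (2 * (k + 1)))‖ *
        ‖4 * sinh (((c : ℂ) + ((k : ℂ) + 1) * t) / 2) ^ 2‖
      ≤ (r ^ (k + 1) * r ^ (k * (k + 1) / 2)) * 2 * (1 - r)⁻¹ *
        ‖4 * sinh (((c : ℂ) + ((k : ℂ) + 1) * t) / 2) ^ 2‖ := by gcongr
    _ = 2 * (1 - r)⁻¹ * r ^ (k * (k + 1) / 2) *
        (r ^ (k + 1) * ‖4 * sinh (((c : ℂ) + ((k : ℂ) + 1) * t) / 2) ^ 2‖) := by ring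
    _ ≤ 2 * (1 - r)⁻¹ * r ^ (k * (k + 1) / 2) * (4 * Real.exp |c|) :=
        mul_le_mul_of_nonneg_left h3 (by positivity)
    _ = _ := by ring

theorem summ_r {r : ℝ} (hr0 : 0 ≤ r) (hr1 : r < 1) : Summable fun k : ℕ => r ^ (k * (k + 1) / 2) := by
  refine Summable.of_nonneg_of_le (fun k => by positivity) (fun k => ?_)
    (summable_geometric_of_lt_one hr0 hr1)
  apply pow_le_pow_of_le_one hr0 hr1.le
  rcases Nat.eq_zero_or_pos k with rfl | hk
  · simp
  · rw [Nat.le_div_iff_mul_le (by norm_num)]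
    exact Nat.mul_le_mul_left k (by omega)

theorem cont_sk (t0 c : ℝ) (ht : 0 < t0) (m k : ℕ) : Continuous fun θ : ℝ => sk (tt t0 θ) c m k := by
  have ct := cont_tt t0
  have cq : Continuous fun θ : ℝ => cexp (-tt t0 θ) := continuous_exp.comp ct.neg
  have nq : ∀ θ : ℝ, ‖cexp (-tt t0 θ)‖ = Real.exp (-t0) := fun θ => by rw [norm_q, tt_re]
  have hr0 : 0 < Real.exp (-t0) := Real.exp_pos _
  have hr1 : Real.exp (-t0) < 1 := r_lt ht
  have cpt : Continuous fun θ : ℝ => pt (cexp (-tt t0 θ)) (cexp (-tt t0 θ) ^ (2 * (k + 1))) :=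
    cont_pt cq (cq.pow _) hr0.le hr1 (fun θ => by rw [nq]; exact hr1.le) (fun θ => by
      rw [norm_pow, nq]
      calc Real.exp (-t0) ^ (2 * (k + 1)) ≤ Real.exp (-t0) ^ 1 :=
            pow_le_pow_of_le_one hr0.le hr1.le (by omega)
        _ = Real.exp (-t0) := pow_one _)
  unfold sk
  refine (((continuous_const.mul (cq.pow _)).mul (continuous_const.sub (cq.pow _))).mul cpt).mul ?_
  refine continuous_const.mul (Continuous.pow ?_ 2)
  exact continuous_sinh.comp ((continuous_const.add (continuous_const.mul ct)).div_const 2)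

theorem cont_QPt (t0 : ℝ) (ht : 0 < t0) :
    Continuous fun θ : ℝ => (QP (cexp (-tt t0 θ)))⁻¹ ^ 2 := by
  have ct := cont_tt t0
  have cq : Continuous fun θ : ℝ => cexp (-tt t0 θ) := continuous_exp.comp ct.neg
  have nq : ∀ θ : ℝ, ‖cexp (-tt t0 θ)‖ = Real.exp (-t0) := fun θ => by rw [norm_q, tt_re]
  have hr0 : 0 < Real.exp (-t0) := Real.exp_pos _
  have hr1 : Real.exp (-t0) < 1 := r_lt ht
  refine Continuous.pow (Continuous.inv₀ (cont_QP cq hr0.le hr1 (fun θ => (nq θ).le)) fun θ => ?_) 2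
  exact QP_ne (by rw [nq]; exact hr1)

theorem cont : ContStatement := by
  refine ⟨?_, ?_, ?_, ?_, ?_⟩
  · intro t0 c ht m
    have h := contFF (1 / 2) (by norm_num) (fun j h => by
      have : (0 : ℝ) ≤ j := Nat.cast_nonneg j
      linarith) t0 c ht m
    exact_mod_cast h
  · intro t0 c ht m
    have h := contFF (3 / 2) (by norm_num) (fun j h => by
      have h1 : ((2 * j + 2 : ℕ) : ℝ) = ((3 : ℕ) : ℝ) := by push_cast; linarith
      have h2 : 2 * j + 2 = 3 := by exact_mod_cast h1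
      omega) t0 c ht m
    exact_mod_cast h
  · intro t0 c ht m k
    exact (cont_QPt t0 ht).mul (cont_sk t0 c ht m k)
  · intro t0 c ht m k
    refine (cont_QPt t0 ht).mul ?_
    have hr0 : 0 < Real.exp (-t0) := Real.exp_pos _
    have hr1 : Real.exp (-t0) < 1 := r_lt ht
    refine continuous_tsum (u := fun j => 8 * Real.exp |c| * (1 - Real.exp (-t0))⁻¹ *
      Real.exp (-t0) ^ ((j + k) * (j + k + 1) / 2)) (fun j => cont_sk t0 c ht m (j + k)) ?_ ?_
    · exact ((summable_nat_add_iff k).2 (summ_r hr0.le hr1)).mul_left _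
    · intro j θ
      have h := norm_sk_le (tt t0 θ) c (by rw [tt_re]; exact ht) m (j + k)
      rw [tt_re] at h
      exact h
  · intro t c ht m
    have hr0 : 0 < Real.exp (-t.re) := Real.exp_pos _
    have hr1 : Real.exp (-t.re) < 1 := r_lt ht
    exact Summable.of_nonneg_of_le (fun k => norm_nonneg _) (fun k => norm_sk_le t c ht m k)
      ((summ_r hr0.le hr1).mul_left _)

end Pool.Agent.Helper92_UR
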